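import Pool.Agent.Lib.H8.Gen

/-!
A telograph-cototal enumeration degree that is not a finite join of cylinder-cototal degrees.
-/

namespace Pool.Agent.Results.MP_2b9a36_lc.No

open Pool.Agent.Lib.H8 CList Om Gen Function Filter Encodable

/-- The value of the operator `Φ` at `B`; the finite set coded by `e` is its set of binary ones. -/
def ap (Φ : ℕ × ℕ → Prop) (B : Set ℕ) : Set ℕ :=
  {n | ∃ e, Φ (n, e) ∧ ∀ i, e.testBit i = true → i ∈ B}

/-- Enumeration reducibility. -/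
def ELe (A B : Set ℕ) : Prop := ∃ Φ, REPred Φ ∧ A = ap Φ B

/-- Enumeration equivalence. -/
def EEq (A B : Set ℕ) : Prop := ELe A B ∧ ELe B A

/-- The join of two sets. -/
def join (A B : Set ℕ) : Set ℕ := {k | (∃ n ∈ A, k = 2 * n) ∨ ∃ n ∈ B, k = 2 * n + 1}

def Graph (g : ℕ → ℕ) : Set ℕ := {k | g k.unpair.1 = k.unpair.2}

def TGraph (b : ℕ) (g : ℕ → ℕ) : Set ℕ := {k | g k.unpair.1 = k.unpair.2 ∧ b ≤ k.unpair.2}

/-- The codes of the finite initial segments of `g`. -/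
def CGraph (g : ℕ → ℕ) : Set ℕ := {k | ∃ l, k = encode ((List.range l).map g)}

/-- The degree of `A` is telograph-cototal. -/
def Telo (A : Set ℕ) : Prop := ∃ g b, EEq A (join (Graph g)ᶜ (TGraph b g))

/-- The join of the complements of the cylinder graphs of a nonempty list of functions. -/
def J : (ℕ → ℕ) → List (ℕ → ℕ) → Set ℕ
  | h, [] => (CGraph h)ᶜ
  | h, h' :: L => join (CGraph h)ᶜ (J h' L)

/-- The degree of `A` is the join of `n` cylinder-cototal degrees. -/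
def Cyl (n : ℕ) (A : Set ℕ) : Prop := ∃ h L, L.length + 1 = n ∧ EEq A (J h L)

lemma ev {A B : Set ℕ} {k : ℕ} : 2 * k ∈ join A B ↔ k ∈ A :=
  ⟨fun h => h.elim (fun ⟨n, a, e⟩ => (by omega : n = k) ▸ a) fun ⟨n, _, e⟩ => by omega,
    fun h => Or.inl ⟨k, h, rfl⟩⟩

lemma od {A B : Set ℕ} {k : ℕ} : 2 * k + 1 ∈ join A B ↔ k ∈ B :=
  ⟨fun h => h.elim (fun ⟨n, _, e⟩ => by omega) fun ⟨n, a, e⟩ => (by omega : n = k) ▸ a,
    fun h => Or.inr ⟨k, h, rfl⟩⟩

/-- Closed under extension of strings. -/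
def Up (S : Set ℕ) : Prop := ∀ s t : List ℕ, s <+: t → encode s ∈ S → encode t ∈ S

/-- All columns are closed under extension of strings. -/
def P : ℕ → Set ℕ → Prop
  | 0, S => Up S
  | n + 1, S => Up {k | 2 * k ∈ S} ∧ P n {k | 2 * k + 1 ∈ S}

lemma up_c (h : ℕ → ℕ) : Up (CGraph h)ᶜ := fun s t p a ⟨l, e⟩ => by
  obtain rfl := encode_injective e
  have := p.length_le
  refine a ⟨s.length, congrArg _ (List.prefix_iff_eq_take.1 p |>.trans ?_)⟩
  rw [← List.map_take, List.take_range, min_eq_left (by simpa using this)]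

lemma P_J : ∀ L h, P (List.length L) (J h L)
  | [], h => up_c h
  | h' :: L, h => ⟨by simp only [J, ev]; exact up_c h, by simp only [J, od]; exact P_J L h'⟩

lemma col (h : ℕ → ℕ) (S : ℕ → Set ℕ) (u : ∀ j, Up (S j)) :
    ∃ φ : ℕ ↪o ℕ, ∀ i j, i ≤ j → S (φ j) ⊆ (CGraph h)ᶜ ∪ S (φ i) := by
  obtain ⟨φ, p⟩ := wellQuasiOrdered_le.exists_monotone_subseq fun j =>
    sInf ((↑) '' {l : ℕ | encode ((List.range l).map h) ∈ S j} : Set ℕ∞)
  refine ⟨φ, fun i j e k a => by_contra fun b => ?_⟩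
  simp only [Set.mem_union, Set.mem_compl_iff, not_or, not_not] at b
  obtain ⟨⟨l, rfl⟩, b⟩ := b
  refine ((p i j e).trans (sInf_le ⟨l, a, rfl⟩)).not_gt
    ((ENat.natCast_lt_natCast.2 l.lt_succ_self).trans_le (le_sInf ?_))
  rintro _ ⟨m, c, rfl⟩
  exact ENat.natCast_le_natCast.2 (by_contra fun d => b (u _ _ _
    ((List.prefix_iff_eq_take.2 (by simp [List.take_range, show m ≤ l by omega])).map h) c))

lemma wqo : ∀ L h (S : ℕ → Set ℕ), (∀ j, P (List.length L) (S j)) →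
    ∃ φ : ℕ ↪o ℕ, ∀ i j, i ≤ j → S (φ j) ⊆ J h L ∪ S (φ i)
  | [], h, S, u => col h S u
  | h' :: L, h, S, u => by
    obtain ⟨φ, p⟩ := col h _ fun j => (u j).1
    obtain ⟨ψ, q⟩ := wqo L h' _ fun j => (u (φ j)).2
    refine ⟨ψ.trans φ, fun i j e k a => ?_⟩
    obtain ⟨k, rfl | rfl⟩ := k.even_or_odd'
    · exact (p _ _ (ψ.monotone e) a).imp_left ev.2
    · exact (q _ _ e a).imp_left od.2

/-- The set attached to a point of the telophase power. -/
def N (g : ℕ → ℕ) : Set ℕ := join (Graph g)ᶜ (TGraph 2 g)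

/-- Measurable dependence. -/
def M (F : (ℕ → ℕ) → Set ℕ) : Prop := ∀ k, Measurable fun g => k ∈ F g

lemma M_N : M N := fun k => by
  obtain ⟨k, rfl | rfl⟩ := k.even_or_odd' <;>
    simp only [N, ev, od, Graph, TGraph, Set.mem_compl_iff, Set.mem_ofPred_eq] <;> fun_prop

lemma M.ap {F : (ℕ → ℕ) → Set ℕ} (h : M F) (Φ : ℕ × ℕ → Prop) : M fun g => ap Φ (F g) :=
  fun _ => .exists fun _ => measurable_const.and (.forall fun i => measurable_const.imp (h i))

lemma M.up {F : (ℕ → ℕ) → Set ℕ} (h : M F) : Measurable fun g => Up (F g) :=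
  .forall fun _ => .forall fun _ => measurable_const.imp ((h _).imp (h _))

lemma M.P : ∀ n {F : (ℕ → ℕ) → Set ℕ}, M F → Measurable fun g => P n (F g)
  | 0, _, h => h.up
  | n + 1, _, h => (M.up fun k => h (2 * k)).and (M.P n fun k => h (2 * k + 1))

lemma gen {ι : Type} [Countable ι] (D : ι → (ℕ → ℕ) → Prop) (h : ∀ j, Measurable (D j)) :
    ∃ G, ∀ j, D j G → ∃ l, ∀ m ≥ l, ∀ x, D j (update G m x) := by
  choose U u v using fun j => (measurableSet_setOfPred.2 (h j)).residualEq_isOpen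
  let f : ℕ × ℕ × ℕ → (ℕ → ℕ) → ℕ → ℕ := fun i g => update g i.1 (Equiv.swap i.2.1 i.2.2 (g i.1))
  have c : ∀ i, Continuous (f i) := fun i =>
    continuous_id.update _ (continuous_of_discreteTopology.comp (continuous_apply _))
  have r : ∀ i, LeftInverse (f i) (f i) := fun i g => by simp [f]
  obtain ⟨G, a⟩ := (dense_of_mem_residual (eventually_countable_forall.2 fun i : ι × ℕ × ℕ × ℕ =>
    (tendsto_residual_of_isOpenMap (c i.2) (.of_inverse (c i.2) (r _) (r _))).eventually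
      (v i.1))).nonempty
  refine ⟨G, fun j d => ?_⟩
  have b : ∀ m x, D j (update G m x) ↔ update G m x ∈ U j := fun m x => by
    have := iff_of_eq (a (j, m, G m, x))
    simp only [f, Equiv.swap_apply_left] at this
    exact this
  obtain ⟨l, e⟩ := in_iff.2 (((u j).interior_eq).symm ▸ by simpa using (b 0 (G 0)).1 (by simpa) :
    G ∈ interior {w | w ∈ U j})
  exact ⟨l, fun m p x => (b m x).2 (e _ fun i q => update_of_ne (by omega) _ _)⟩

/-- Every element of `A` eventually belongs to `F x`. -/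
def Ev (A : Set ℕ) (F : ℕ → Set ℕ) : Prop := ∀ k ∈ A, ∀ᶠ x in atTop, k ∈ F x

lemma Ev.ap {A : Set ℕ} {F : ℕ → Set ℕ} (h : Ev A F) (Φ : ℕ × ℕ → Prop) :
    Ev (ap Φ A) fun x => ap Φ (F x) := fun _ ⟨e, a, b⟩ =>
  ((eventually_all_finite ((Set.finite_lt_nat e).subset fun i (t : e.testBit i = true) =>
    i.lt_two_pow_self.trans_le (Nat.ge_two_pow_of_testBit t))).2 fun i t => h i (b i t)).mono
      fun _ u => ⟨e, a, u⟩

lemma ev_N (G : ℕ → ℕ) (m y : ℕ) (h : y < 2) : Ev (N (update G m y)) fun x => N (update G m x) := by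
  intro k a
  obtain ⟨k, rfl | rfl⟩ := k.even_or_odd' <;>
    simp only [N, ev, od, Graph, TGraph, Set.mem_compl_iff, Set.mem_ofPred_eq] at a ⊢ <;>
    by_cases e : k.unpair.1 = m
  · simpa only [e, update_self] using eventually_ne_atTop k.unpair.2
  · exact .of_forall fun _ => by simpa [e] using a
  · simp only [e, update_self] at a
    omega
  · exact .of_forall fun _ => by simpa [e] using a

theorem result : ∃ A : Set ℕ, Telo A ∧ ∀ n ≥ 1, ¬ Cyl n A := by
  obtain ⟨G, g⟩ := gen (ι := ℕ ⊕ ℕ × {p : ℕ × ℕ → Prop // REPred p} × {p : ℕ × ℕ → Prop // REPred p})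
    (Sum.elim (fun l g => ∀ m, l ≤ m → ¬ g m = 0) fun i g =>
      (∀ k, k ∈ N g ↔ k ∈ ap i.2.2.1 (ap i.2.1.1 (N g))) ∧ P i.1 (ap i.2.1.1 (N g))) (by
    rintro (l | i)
    · simp only [Sum.elim_inl]
      fun_prop
    · exact (Measurable.forall fun k => (M_N k).iff ((M_N.ap _).ap _ k)).and (M.P _ (M_N.ap _)))
  have r : ELe (N G) (N G) := ⟨_, sig_re (CeAlg.cs (ceq Computable.snd (Rnd.pow_c.comp Computable.fst))),
    Set.ext fun k => ⟨fun h => ⟨_, rfl, fun i t => by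
      rw [Nat.testBit_two_pow, decide_eq_true_eq] at t; exact t ▸ h⟩,
      fun ⟨e, a, b⟩ => b k (by simp [show e = 2 ^ k from a])⟩⟩
  refine ⟨N G, ⟨G, 2, r, r⟩, fun n _ ⟨h, L, _, ⟨Ψ, p, a⟩, Φ, q, b⟩ => ?_⟩
  obtain ⟨l, d⟩ := g (Sum.inr (L.length, ⟨Φ, q⟩, ⟨Ψ, p⟩))
    ⟨Set.ext_iff.1 (b ▸ a), b ▸ P_J L h⟩
  have z : {m | l ≤ m ∧ G m = 0}.Infinite := Set.infinite_of_not_bddAbove fun ⟨k, s⟩ => by
    obtain ⟨j, t⟩ := g (Sum.inl (l + k + 1)) fun m u v => by have := s ⟨by omega, v⟩; omega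
    exact t (j + l + k + 1) (by omega) 0 (j + l + k + 1) (by omega) (update_self ..)
  let e := z.natEmbedding
  obtain ⟨φ, w⟩ := wqo L h (fun j => ap Φ (N (update G (e j) 1))) fun j => (d _ (e j).2.1 1).2
  have ne : (e (φ 1) : ℕ) ≠ e (φ 0) := fun t => by simpa using e.injective (Subtype.ext t)
  have v : Ev (ap Φ (N (update G (e (φ 1)) 1))) fun x => ap Φ (N (update G (e (φ 0)) x)) :=
    fun k t => (w 0 1 (by simp) t).elim (fun t => (ev_N G _ 0 (by simp)).ap Φ k (by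
      rwa [update_eq_self_iff.2 (e (φ 0)).2.2.symm, ← b])) ((ev_N G _ 1 (by simp)).ap Φ k)
  obtain ⟨x, t⟩ := (v.ap Ψ (2 * Nat.pair (e (φ 1)) 0)
    (((d _ (e _).2.1 1).1 _).1 (by simp [N, ev, Graph]))).exists
  have := ((d _ (e _).2.1 x).1 _).2 t
  simp [N, ev, Graph, ne, (e _).2.2] at this

end Pool.Agent.Results.MP_2b9a36_lc.No
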